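import Mathlib
import Pool.Agent.V5helper2.NR.Stm

set_option autoImplicit false
open Finset Filter Topology MeasureTheory AddCircle
open scoped ComplexConjugate

namespace Pool.Agent.V5helper6.NRS

open Pool.Agent.Helper498.NCR Pool.Agent.V5helper2.CF Pool.Agent.V5helper2.NR

/-- job DET: van der Corput inequality -/
theorem t_DET : S_DET := by
  intro a v c ha hv hc J N hJ hN
  have hJc : (J : ℂ) ≠ 0 := by exact_mod_cast (by omega : J ≠ 0)
  have hNc : (N : ℂ) ≠ 0 := by exact_mod_cast (by omega : N ≠ 0)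
  set F : ℕ → ℕ → ℂ := fun m n => a m * v (m + n) * c (m + 2 * n) with hF
  have hF1 : ∀ m n, ‖F m n‖ ≤ 1 := by
    intro m n
    simp only [hF, norm_mul]
    have h1 := ha m
    have h2 := hv (m + n)
    have h3 := hc (m + 2 * n)
    have h4 : ‖a m‖ * ‖v (m + n)‖ ≤ 1 := mul_le_one₀ h1 (norm_nonneg _) h2
    exact mul_le_one₀ h4 (norm_nonneg _) h3
  set X : ℕ → ℕ → ℂ := fun k l => (J : ℂ)⁻¹ * ∑ j ∈ range J, a (k + j) * c (l + (2 * J - j))
    with hX
  have s1 := avg_shift F hF1 N J J hN hJ (fun j => j) (fun j => J - j) (fun j hj => by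
    show j + (J - j) ≤ J
    omega)
  have e1 : (fun m n => (J : ℂ)⁻¹ * ∑ j ∈ range J, F (m + j) (n + (J - j)))
      = fun m n => v (m + n + J) * X m (m + 2 * n) := by
    funext m n
    simp only [hF, hX]
    rw [mul_left_comm, Finset.mul_sum (range J) _ (v _)]
    congr 1
    refine Finset.sum_congr rfl fun j hj => ?_
    have hj' := mem_range.1 hj
    have x1 : m + j + (n + (J - j)) = m + n + J := by omega
    have x2 : m + j + 2 * (n + (J - j)) = m + 2 * n + (2 * J - j) := by omega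
    rw [x1, x2]
    ring
  have e1' : bavg N (fun m n => (J : ℂ)⁻¹ * ∑ j ∈ range J,
      F (m + (fun j => j) j) (n + (fun j => J - j) j))
      = bavg N (fun m n => v (m + n + J) * X m (m + 2 * n)) := by
    rw [← e1]
  rw [e1'] at s1
  have s2 : ‖bavg N (fun m n => v (m + n + J) * X m (m + 2 * n))‖ ≤
      ((N : ℝ) ^ 2)⁻¹ * ∑ m ∈ range N, ∑ n ∈ range N, ‖X m (m + 2 * n)‖ := by
    refine (norm_bavg_le _ _).trans ?_
    gcongr with m _ n _
    rw [norm_mul]
    exact mul_le_of_le_one_left (norm_nonneg _) (hv _)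
  have s3 : ‖bavg N (fun m n => v (m + n + J) * X m (m + 2 * n))‖ ^ 2 ≤
      ((N : ℝ) ^ 2)⁻¹ * ∑ m ∈ range N, ∑ n ∈ range N, ‖X m (m + 2 * n)‖ ^ 2 :=
    (pow_le_pow_left₀ (norm_nonneg _) s2 2).trans (sq_avg_le N _)
  have s4 : ∑ m ∈ range N, ∑ n ∈ range N, ‖X m (m + 2 * n)‖ ^ 2 ≤
      ∑ k ∈ range (3 * N), ∑ l ∈ range (3 * N), ‖X k l‖ ^ 2 := by
    have h1 : ∀ m ∈ range N, ∑ n ∈ range N, ‖X m (m + 2 * n)‖ ^ 2 ≤
        ∑ l ∈ range (3 * N), ‖X m l‖ ^ 2 := by
      intro m hm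
      have hm' := mem_range.1 hm
      have hinj : Set.InjOn (fun n : ℕ => m + 2 * n) (range N : Set ℕ) := by
        intro x _ y _ hxy
        simp only at hxy
        omega
      rw [← Finset.sum_image (f := fun l => ‖X m l‖ ^ 2) (g := fun n : ℕ => m + 2 * n) hinj]
      refine Finset.sum_le_sum_of_subset_of_nonneg ?_ fun _ _ _ => by positivity
      intro l hl
      obtain ⟨n, hn, rfl⟩ := Finset.mem_image.1 hl
      have hn' := mem_range.1 hn
      rw [mem_range]
      omega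
    refine (Finset.sum_le_sum h1).trans ?_
    refine Finset.sum_le_sum_of_subset_of_nonneg ?_ fun k _ _ =>
      Finset.sum_nonneg fun l _ => by positivity
    intro m hm
    rw [mem_range] at hm ⊢
    omega
  -- expand the square
  have e2 : (((((N : ℝ) ^ 2)⁻¹ * ∑ k ∈ range (3 * N), ∑ l ∈ range (3 * N), ‖X k l‖ ^ 2 : ℝ)) : ℂ)
      = ((J : ℂ) ^ 2)⁻¹ * ∑ j ∈ range J, ∑ j' ∈ range J,
      ((N : ℂ)⁻¹ * ∑ k ∈ range (3 * N), a (k + j) * conj (a (k + j'))) *
      ((N : ℂ)⁻¹ * ∑ l ∈ range (3 * N), c (l + (2 * J - j)) * conj (c (l + (2 * J - j')))) := by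
    have hx : ∀ k l, ((‖X k l‖ ^ 2 : ℝ) : ℂ) =
        ((J : ℂ) ^ 2)⁻¹ * ∑ j ∈ range J, ∑ j' ∈ range J,
          (a (k + j) * conj (a (k + j'))) *
          (c (l + (2 * J - j)) * conj (c (l + (2 * J - j')))) := by
      intro k l
      have h0 : ((‖X k l‖ ^ 2 : ℝ) : ℂ) = X k l * conj (X k l) := by
        rw [Complex.mul_conj, Complex.normSq_eq_norm_sq]
      rw [h0]
      simp only [hX, map_mul, map_sum, map_inv₀, Complex.conj_natCast]
      rw [mul_mul_mul_comm, Finset.sum_mul_sum]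
      congr 1
      · rw [pow_two, mul_inv]
      · refine Finset.sum_congr rfl fun j _ => Finset.sum_congr rfl fun j' _ => ?_
        ring
    push_cast
    have hx' : ∀ k l, ((‖X k l‖ : ℂ)) ^ 2 =
        ((J : ℂ) ^ 2)⁻¹ * ∑ j ∈ range J, ∑ j' ∈ range J,
          (a (k + j) * conj (a (k + j'))) *
          (c (l + (2 * J - j)) * conj (c (l + (2 * J - j')))) := by
      intro k l
      rw [← hx k l]
      push_cast
      rfl
    simp_rw [hx']
    simp_rw [← Finset.mul_sum]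
    rw [mul_left_comm]
    congr 1
    -- interchange the sums
    calc ((N : ℂ) ^ 2)⁻¹ * ∑ k ∈ range (3 * N), ∑ l ∈ range (3 * N),
          ∑ j ∈ range J, ∑ j' ∈ range J, (a (k + j) * conj (a (k + j'))) *
          (c (l + (2 * J - j)) * conj (c (l + (2 * J - j'))))
        = ((N : ℂ) ^ 2)⁻¹ * ∑ j ∈ range J, ∑ j' ∈ range J, ∑ k ∈ range (3 * N),
            ∑ l ∈ range (3 * N), (a (k + j) * conj (a (k + j'))) *
          (c (l + (2 * J - j)) * conj (c (l + (2 * J - j')))) := by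
          congr 1
          rw [Finset.sum_congr rfl fun k _ => Finset.sum_comm]
          rw [Finset.sum_comm]
          refine Finset.sum_congr rfl fun j _ => ?_
          rw [Finset.sum_congr rfl fun k _ => Finset.sum_comm]
          rw [Finset.sum_comm]
      _ = ∑ j ∈ range J, ∑ j' ∈ range J,
          ((N : ℂ)⁻¹ * ∑ k ∈ range (3 * N), a (k + j) * conj (a (k + j'))) *
          ((N : ℂ)⁻¹ * ∑ l ∈ range (3 * N),
            c (l + (2 * J - j)) * conj (c (l + (2 * J - j')))) := by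
          rw [Finset.mul_sum]
          refine Finset.sum_congr rfl fun j _ => ?_
          rw [Finset.mul_sum]
          refine Finset.sum_congr rfl fun j' _ => ?_
          rw [← Finset.sum_mul_sum, mul_mul_mul_comm, pow_two, mul_inv]
  set S : ℂ := ((J : ℂ) ^ 2)⁻¹ * ∑ j ∈ range J, ∑ j' ∈ range J,
      ((N : ℂ)⁻¹ * ∑ k ∈ range (3 * N), a (k + j) * conj (a (k + j'))) *
      ((N : ℂ)⁻¹ * ∑ l ∈ range (3 * N), c (l + (2 * J - j)) * conj (c (l + (2 * J - j'))))
    with hS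
  have s5 : ((N : ℝ) ^ 2)⁻¹ * ∑ k ∈ range (3 * N), ∑ l ∈ range (3 * N), ‖X k l‖ ^ 2 = ‖S‖ := by
    rw [← e2, Complex.norm_real, Real.norm_of_nonneg]
    refine mul_nonneg (by positivity) ?_
    exact Finset.sum_nonneg fun k _ => Finset.sum_nonneg fun l _ => by positivity
  have s6 : ‖bavg N (fun m n => v (m + n + J) * X m (m + 2 * n))‖ ^ 2 ≤ ‖S‖ := by
    refine s3.trans ?_
    rw [← s5]
    gcongr
  have s7 : ‖bavg N F‖ ≤ 2 * J / N + ‖bavg N (fun m n => v (m + n + J) * X m (m + 2 * n))‖ := by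
    have h := norm_sub_norm_le (bavg N F) (bavg N (fun m n => v (m + n + J) * X m (m + 2 * n)))
    linarith
  have s8 : ‖bavg N F‖ ^ 2 ≤
      (2 * J / N + ‖bavg N (fun m n => v (m + n + J) * X m (m + 2 * n))‖) ^ 2 :=
    pow_le_pow_left₀ (norm_nonneg _) s7 2
  nlinarith [sq_nonneg ((2 * J / N : ℝ) - ‖bavg N (fun m n => v (m + n + J) * X m (m + 2 * n))‖)]

end Pool.Agent.V5helper6.NRS
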